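import Pool.Agent.H46.NB.Na

/-!
ROW Ne (MP_b319aa_NA, block B7: pointwise bounds from densities).
PROOF. `one_dir`: let `0 < k ≤ 1/4`, `closedBall x0 (4 R) ⊆ O`, `A0 ≥ ⨍_{ball x0 R} sp u t^2`, `‖t‖ = 1`. For `x, y ∈ ball x0 (k R)`, `y = x + s t`, `s > 0` (`s < 2 k R`): apply `dq_avg` (`XI.lean`) with `r = (1 - k) R`: the centres `x + s' t` are in `ball x0 (k R)` (convex), so
`ball (x + s' t) ((1-k) R) ⊆ ball x0 R` and `⨍_{ball (x + s' t) ((1-k) R)} sp^2 ≤ (1 - k)^(-2) ⨍_{ball x0 R} sp^2 ≤ (1-k)^(-2) A0` (non negative function, integrable: `sp_sq_int`; volumes: `Complex.volume_ball`, `setAverage_eq`); `closedBall x ((1-k) R + s) ⊆ closedBall x0 (4 R)`.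
`lip`: let `L` be a Lipschitz constant of `u` on a closed ball around `x0` in `O`, `L ≥ 1`, `L^2 ≥ Q 1 + Q I`. Let `e, η > 0` be small (chosen at the end). The unit circle is compact: a finite set `T` of unit vectors such that every unit `t` has `t1 ∈ T` with `‖t - t1‖ ≤ η`. By `hd` (and `Filter.eventually_all_finset`) there is `R > 0`
with `closedBall x0 (4 R) ⊆ O` (and inside the ball where `u` is `L`-Lipschitz) and `⨍_{ball x0 R} sp u t1^2 ≤ Q t1 + e` for `t1 ∈ T`. Let `k = min (1/4) (e / (6 (L^2 + e)))`, so `(1-k)^(-2) (Q t1 + e) ≤ Q t1 + 2 e` (`(1-k)^(-2) ≤ 1 + 6 k` on `[0,1/4]`, `Q t1 ≤ L^2`). `r := k R / 3`. For `y, y' ∈ ball x0 r`, `y ≠ y'`: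
`y' - y = s t`, `‖t‖ = 1`, `s < 2 r`; `t1 ∈ T`, `y'' = y + s t1 ∈ ball x0 (k R)`. `dist (u y) (u y'') ≤ s √(Q t1 + 2 e)` (`one_dir`), `dist (u y'') (u y') ≤ L s η`, `√(Q t1) ≤ √(Q t) + L η` (`tri`, `le`), so `dist (u y) (u y') ≤ s (√(Q t) + κ)`, `κ = √(2 e) + 2 L η`, and
`dist^2 ≤ s^2 (Q t + 2 L κ + κ^2) ≤ Q (y' - y) + del^2 s^2` if `2 L κ + κ^2 ≤ del^2` (`smul`): choose `e`, `η` such that `κ ≤ min 1 (del^2 / (2 L + 1))`.
-/

set_option autoImplicit false

namespace H46NB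

open H50NA H98NX MeasureTheory Set Filter Topology Metric

variable {X : Type} [MetricSpace X] {gm : X → X → ℝ → X} {u w : ℂ → X} {x0 : ℂ} {Q : ℂ → ℝ}

theorem Ne_vol (c : ℂ) {r : ℝ} (hr : 0 ≤ r) : (volume : Measure ℂ).real (ball c r) = Real.pi * r ^ 2 := by
  rw [Measure.real, Complex.volume_ball, ENNReal.toReal_mul, ENNReal.toReal_pow,
    ENNReal.toReal_ofReal hr]
  rw [ENNReal.coe_toReal, NNReal.coe_real_pi, mul_comm]

/-- averages of a non negative function on a smaller ball -/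
theorem Ne_avg {F : ℂ → ℝ} (hF : ∀ y, 0 ≤ F y) {c c' : ℂ} {rho R : ℝ} (hrho : 0 < rho) (hR : 0 < R)
    (hint : IntegrableOn F (ball c R)) (hsub : ball c' rho ⊆ ball c R) :
    (⨍ y in ball c' rho, F y) ≤ (R / rho) ^ 2 * ⨍ y in ball c R, F y := by
  rw [setAverage_eq, setAverage_eq, Ne_vol c' hrho.le, Ne_vol c hR.le, smul_eq_mul, smul_eq_mul]
  have h1 : ∫ y in ball c' rho, F y ≤ ∫ y in ball c R, F y :=
    setIntegral_mono_set hint (Eventually.of_forall hF) hsub.eventuallyLE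
  have hpi := Real.pi_pos
  have e : (R / rho) ^ 2 * ((Real.pi * R ^ 2)⁻¹ * ∫ y in ball c R, F y) =
      (Real.pi * rho ^ 2)⁻¹ * ∫ y in ball c R, F y := by
    field_simp
  rw [e]
  exact mul_le_mul_of_nonneg_left h1 (by positivity)

theorem one_dir (hX : Npc X gm) {O : Set ℂ} (hu : LM u O) {k R A0 : ℝ} (hk : 0 < k) (hk4 : k ≤ 1 / 4) (hR : 0 < R)
    (hRO : closedBall x0 (4 * R) ⊆ O) {t : ℂ} (ht : ‖t‖ = 1) (hA : (⨍ y in ball x0 R, sp u t y ^ 2) ≤ A0) {x : ℂ}
    (hx : x ∈ ball x0 (k * R)) {s : ℝ} (hs : 0 < s) (hy : x + (s : ℂ) * t ∈ ball x0 (k * R)) :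
    dist (u (x + (s : ℂ) * t)) (u x) ^ 2 ≤ s ^ 2 * (A0 / (1 - k) ^ 2) := by
  have hO : IsOpen O := hu.opn
  have h1k : 0 < 1 - k := by linarith
  have hx' : dist x x0 < k * R := hx
  have hy' : dist (x + (s : ℂ) * t) x0 < k * R := hy
  have hst : ‖(s : ℂ) * t‖ = s := by
    rw [norm_mul, ht, mul_one, Complex.norm_real, Real.norm_of_nonneg hs.le]
  have hs2 : s < 2 * k * R := by
    have h1 : dist (x + (s : ℂ) * t) x = s := by rw [dist_eq_norm, add_sub_cancel_left, hst]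
    have h2 := dist_triangle_right (x + (s : ℂ) * t) x x0
    linarith
  have hkR : 0 < k * R := mul_pos hk hR
  have hkR4 : k * R ≤ 1 / 4 * R := mul_le_mul_of_nonneg_right hk4 hR.le
  have hr : 0 < (1 - k) * R := mul_pos h1k hR
  refine dq_avg hX hu t x hr hs ?_ ?_
  · refine (closedBall_subset_closedBall' ?_).trans hRO
    rw [ht, mul_one]
    have : (1 - k) * R = R - k * R := by ring
    linarith
  · intro s' hs0 hss
    have hc : x + (s' : ℂ) * t ∈ ball x0 (k * R) := by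
      have h1 := (convex_ball x0 (k * R)).add_smul_mem hx hy
        (t := s' / s) ⟨div_nonneg hs0 hs.le, (div_le_one hs).2 hss⟩
      have e : x + (s' / s) • ((s : ℂ) * t) = x + (s' : ℂ) * t := by
        rw [Complex.real_smul, ← mul_assoc, ← Complex.ofReal_mul, div_mul_cancel₀ _ hs.ne']
      rwa [e] at h1
    have hc' : dist (x + (s' : ℂ) * t) x0 < k * R := hc
    have hsub : ball (x + (s' : ℂ) * t) ((1 - k) * R) ⊆ ball x0 R := by
      refine ball_subset_ball' ?_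
      have : (1 - k) * R = R - k * R := by ring
      linarith
    have hcb : closedBall x0 R ⊆ O := (closedBall_subset_closedBall (by linarith)).trans hRO
    have hint : IntegrableOn (fun y => sp u t y ^ 2) (ball x0 R) :=
      (sp_sq_int volume hO hu.lip (isCompact_closedBall x0 R) hcb measurableSet_ball
        ball_subset_closedBall t).1
    refine (Ne_avg (fun y => sq_nonneg _) hr hR hint hsub).trans ?_
    have e : R / ((1 - k) * R) = 1 / (1 - k) := by
      field_simp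
    rw [e, div_pow, one_pow, one_div, ← div_eq_inv_mul]
    exact div_le_div_of_nonneg_right hA (by positivity)

theorem lip (hX : Npc X gm) {O : Set ℂ} (hu : LM u O) (hx : x0 ∈ O) (h : Apx u w x0 Q)
    (hd : ∀ t : ℂ, Tendsto (fun r : ℝ => ⨍ y in ball x0 r, sp u t y ^ 2) (𝓝[>] 0) (𝓝 (Q t))) {del : ℝ}
    (hdel : 0 < del) : ∃ r : ℝ, 0 < r ∧ ball x0 r ⊆ O ∧ ∀ y ∈ ball x0 r, ∀ y' ∈ ball x0 r,
      dist (u y) (u y') ^ 2 ≤ Q (y' - y) + del ^ 2 * dist y y' ^ 2 := by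
  have hO : IsOpen O := hu.opn
  obtain ⟨r0, hr0, hr0O, L0, hL0, hLip⟩ := lpo_ball hO hu.lip hx
  have hq0 : 0 ≤ Q 1 + Q Complex.I := add_nonneg (h.nn 1) (h.nn Complex.I)
  obtain ⟨L, hL⟩ : ∃ L : ℝ, L = L0 + 1 + √(Q 1 + Q Complex.I) := ⟨_, rfl⟩
  have hsq := Real.sqrt_nonneg (Q 1 + Q Complex.I)
  have hL1 : 1 ≤ L := by linarith
  have hLL0 : L0 ≤ L := by linarith
  have hLq : √(Q 1 + Q Complex.I) ≤ L := by linarith
  have hLpos : 0 < L := by linarith
  have hQ1 : Q 1 + Q Complex.I ≤ L ^ 2 := by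
    rw [← Real.sq_sqrt hq0]
    exact pow_le_pow_left₀ hsq hLq 2
  have hQle : ∀ t : ℂ, ‖t‖ = 1 → Q t ≤ L ^ 2 := by
    intro t ht
    have h1 := h.le t
    rw [ht, one_pow, one_mul] at h1
    exact h1.trans hQ1
  -- constants
  obtain ⟨ka, hka⟩ : ∃ ka : ℝ, ka = min 1 (del ^ 2 / (2 * L + 1)) := ⟨_, rfl⟩
  have hka0 : 0 < ka := by
    rw [hka]
    exact lt_min one_pos (by positivity)
  have hka1 : ka ≤ 1 := by rw [hka]; exact min_le_left _ _
  have hka2 : ka * (2 * L + 1) ≤ del ^ 2 := by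
    rw [← le_div_iff₀ (by positivity), hka]
    exact min_le_right _ _
  obtain ⟨eta, heta⟩ : ∃ eta : ℝ, eta = ka / (4 * L) := ⟨_, rfl⟩
  have heta0 : 0 < eta := by rw [heta]; positivity
  have heta2 : 2 * (L * eta) = ka / 2 := by
    rw [heta]
    field_simp
    ring
  obtain ⟨e, he⟩ : ∃ e : ℝ, e = ka ^ 2 / 8 := ⟨_, rfl⟩
  have he0 : 0 < e := by rw [he]; positivity
  have hse : √(2 * e) = ka / 2 := by
    have : 2 * e = (ka / 2) ^ 2 := by rw [he]; ring
    rw [this]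
    exact Real.sqrt_sq (by positivity)
  -- finite net of the unit circle
  obtain ⟨T, hTs, hTf, hTc⟩ := (isCompact_sphere (0:ℂ) 1).finite_cover_balls heta0
  have hT1 : ∀ t ∈ T, ‖t‖ = 1 := fun t ht => mem_sphere_zero_iff_norm.1 (hTs ht)
  have hev : ∀ᶠ r : ℝ in 𝓝[>] 0, ∀ t ∈ T, (⨍ y in ball x0 r, sp u t y ^ 2) < Q t + e := by
    rw [eventually_all_finite hTf]
    intro t _
    exact (hd t).eventually_lt_const (by linarith)
  have hev2 : ∀ᶠ r : ℝ in 𝓝[>] 0, r < r0 / 4 :=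
    (eventually_lt_nhds (by positivity : (0:ℝ) < r0 / 4)).filter_mono nhdsWithin_le_nhds
  obtain ⟨R, ⟨hRT, hRr⟩, hR⟩ := ((hev.and hev2).and self_mem_nhdsWithin).exists
  have hR : 0 < R := hR
  have hRO : closedBall x0 (4 * R) ⊆ O :=
    (closedBall_subset_closedBall (by linarith)).trans hr0O
  obtain ⟨k, hk⟩ : ∃ k : ℝ, k = min (1 / 4) (e / (6 * (L ^ 2 + e))) := ⟨_, rfl⟩
  have hk0 : 0 < k := by
    rw [hk]
    exact lt_min (by norm_num) (by positivity)
  have hk4 : k ≤ 1 / 4 := by rw [hk]; exact min_le_left _ _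
  have hk6 : k * (6 * (L ^ 2 + e)) ≤ e := by
    rw [← le_div_iff₀ (by positivity), hk]
    exact min_le_right _ _
  have hkR : 0 < k * R := mul_pos hk0 hR
  have hkR4 : k * R ≤ 1 / 4 * R := mul_le_mul_of_nonneg_right hk4 hR.le
  refine ⟨k * R / 3, by positivity, ?_, ?_⟩
  · refine (ball_subset_closedBall.trans (closedBall_subset_closedBall ?_)).trans hRO
    linarith
  intro y hy y' hy'
  have hyd : dist y x0 < k * R / 3 := hy
  have hyd' : dist y' x0 < k * R / 3 := hy'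
  rcases eq_or_ne y y' with rfl | hne
  · rw [dist_self, sub_self, h.zero]
    norm_num
  obtain ⟨s, hs⟩ : ∃ s : ℝ, s = dist y y' := ⟨_, rfl⟩
  have hs0 : 0 < s := by rw [hs]; exact dist_pos.2 hne
  have hsc : (s : ℂ) ≠ 0 := Complex.ofReal_ne_zero.2 hs0.ne'
  have hs2 : s < 2 * (k * R / 3) := by
    have := dist_triangle_right y y' x0
    linarith
  obtain ⟨t, ht⟩ : ∃ t : ℂ, t = (y' - y) / s := ⟨_, rfl⟩
  have hst : (s : ℂ) * t = y' - y := by rw [ht, mul_div_cancel₀ _ hsc]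
  have htn : ‖t‖ = 1 := by
    rw [ht, norm_div, Complex.norm_real, Real.norm_of_nonneg hs0.le, hs, dist_eq_norm,
      norm_sub_rev y y', div_self]
    rw [← dist_eq_norm, dist_comm, ← hs]
    exact hs0.ne'
  obtain ⟨t1, ht1T, ht1⟩ : ∃ t1 ∈ T, dist t t1 < eta := by
    have h1 := hTc (mem_sphere_zero_iff_norm.2 htn)
    simp only [mem_iUnion, mem_ball, exists_prop] at h1
    exact h1
  have ht1n := hT1 t1 ht1T
  have hyk : y ∈ ball x0 (k * R) := by
    rw [mem_ball]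
    linarith
  have hsn : ∀ z : ℂ, ‖z‖ = 1 → ‖(s : ℂ) * z‖ = s := fun z hz => by
    rw [norm_mul, hz, mul_one, Complex.norm_real, Real.norm_of_nonneg hs0.le]
  have hy2 : y + (s : ℂ) * t1 ∈ ball x0 (k * R) := by
    rw [mem_ball]
    have h1 := dist_triangle (y + (s : ℂ) * t1) y x0
    have h2 : dist (y + (s : ℂ) * t1) y = s := by
      rw [dist_eq_norm, add_sub_cancel_left, hsn t1 ht1n]
    linarith
  have hd1 := one_dir hX hu hk0 hk4 hR hRO ht1n (hRT t1 ht1T).le hyk hs0 hy2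
  have hQt1 := h.nn t1
  have hQt := h.nn t
  have hk1 : 0 < 1 - k := by linarith
  have hfrac : (Q t1 + e) / (1 - k) ^ 2 ≤ Q t1 + 2 * e := by
    rw [div_le_iff₀ (by positivity)]
    have h1 : k * Q t1 ≤ k * L ^ 2 := mul_le_mul_of_nonneg_left (hQle t1 ht1n) hk0.le
    have h2 : 0 ≤ k ^ 2 * (Q t1 + 2 * e) := by positivity
    have h3 : 0 ≤ k * L ^ 2 := by positivity
    have h4 : 0 ≤ k * e := by positivity
    nlinarith
  have hd2 : dist (u (y + (s : ℂ) * t1)) (u y) ≤ s * (√(Q t1) + ka / 2) := by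
    have h1 : dist (u (y + (s : ℂ) * t1)) (u y) ^ 2 ≤ (s * √(Q t1 + 2 * e)) ^ 2 := by
      rw [mul_pow, Real.sq_sqrt (by positivity)]
      exact hd1.trans (mul_le_mul_of_nonneg_left hfrac (by positivity))
    have h2 := (abs_le_of_sq_le_sq' h1 (by positivity)).2
    have h3 : √(Q t1 + 2 * e) ≤ √(Q t1) + √(2 * e) := by
      rw [Real.sqrt_le_left (by positivity)]
      have a1 := Real.sq_sqrt hQt1
      have a2 := Real.sq_sqrt (by positivity : 0 ≤ 2 * e)
      have a3 : 0 ≤ √(Q t1) * √(2 * e) := by positivity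
      nlinarith
    rw [hse] at h3
    exact h2.trans (mul_le_mul_of_nonneg_left h3 hs0.le)
  have hd3 : √(Q t1) ≤ √(Q t) + L * eta := by
    have h1 := h.tri t (t1 - t)
    rw [add_sub_cancel] at h1
    have h2 : √(Q (t1 - t)) ≤ L * eta := by
      have h3 : Q (t1 - t) ≤ (eta * L) ^ 2 := by
        refine (h.le _).trans ?_
        rw [mul_pow]
        refine mul_le_mul (pow_le_pow_left₀ (norm_nonneg _) ?_ 2) hQ1 hq0 (by positivity)
        rw [← dist_eq_norm, dist_comm]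
        exact ht1.le
      calc √(Q (t1 - t)) ≤ √((eta * L) ^ 2) := Real.sqrt_le_sqrt h3
        _ = L * eta := by rw [Real.sqrt_sq (by positivity), mul_comm]
    linarith
  have hd4 : dist (u (y + (s : ℂ) * t1)) (u y') ≤ s * (L * eta) := by
    have h1 := hLip (y + (s : ℂ) * t1) (by
      rw [mem_closedBall]
      rw [mem_ball] at hy2
      linarith) y' (by
      rw [mem_closedBall]
      linarith)
    have h2 : dist (y + (s : ℂ) * t1) y' = s * dist t t1 := by
      have e1 : y + (s : ℂ) * t1 - y' = (s : ℂ) * (t1 - t) := by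
        rw [mul_sub, hst]
        ring
      rw [dist_eq_norm, e1, norm_mul, Complex.norm_real, Real.norm_of_nonneg hs0.le,
        ← dist_eq_norm, dist_comm]
    rw [h2] at h1
    calc dist (u (y + (s : ℂ) * t1)) (u y') ≤ L0 * (s * dist t t1) := h1
      _ ≤ L * (s * eta) := by
          refine mul_le_mul hLL0 (mul_le_mul_of_nonneg_left ht1.le hs0.le) (by positivity) hLpos.le
      _ = s * (L * eta) := by ring
  have hd5 : dist (u y) (u y') ≤ s * (√(Q t) + ka) := by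
    have h1 := dist_triangle (u y) (u (y + (s : ℂ) * t1)) (u y')
    rw [dist_comm (u y) (u (y + (s : ℂ) * t1))] at h1
    have h2 : s * (√(Q t1) + ka / 2) ≤ s * ((√(Q t) + L * eta) + ka / 2) :=
      mul_le_mul_of_nonneg_left (by linarith) hs0.le
    have h3 : s * ((√(Q t) + L * eta) + ka / 2) + s * (L * eta) = s * (√(Q t) + ka) := by
      have : s * ((√(Q t) + L * eta) + ka / 2) + s * (L * eta) =
          s * (√(Q t) + (2 * (L * eta)) + ka / 2) := by ring
      rw [this, heta2]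
      ring
    linarith
  have hsQ : √(Q t) ≤ L := by
    have h1 : √(Q t) ≤ √(L ^ 2) := Real.sqrt_le_sqrt (hQle t htn)
    rwa [Real.sqrt_sq hLpos.le] at h1
  have hsQ0 := Real.sqrt_nonneg (Q t)
  have hQy : Q (y' - y) = s ^ 2 * Q t := by rw [← hst, h.smul]
  rw [hQy, ← hs]
  calc dist (u y) (u y') ^ 2 ≤ (s * (√(Q t) + ka)) ^ 2 := pow_le_pow_left₀ dist_nonneg hd5 2
    _ = s ^ 2 * (√(Q t) ^ 2 + ka * (2 * √(Q t) + ka)) := by ring
    _ ≤ s ^ 2 * (Q t + del ^ 2) := by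
        refine mul_le_mul_of_nonneg_left ?_ (sq_nonneg s)
        rw [Real.sq_sqrt hQt]
        have h1 : ka * (2 * √(Q t) + ka) ≤ ka * (2 * L + 1) :=
          mul_le_mul_of_nonneg_left (by linarith) hka0.le
        linarith
    _ = s ^ 2 * Q t + del ^ 2 * s ^ 2 := by ring

end H46NB
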