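import Pool.Agent.H46.NB.Na
import Pool.Agent.H1.NA.Fa

/-!
ROW Nf (MP_b319aa_NA, blocks B6, B7: semicontinuity of the quadratic form, and the model given by blow-up data).
PROOF. `semi`: let `t ≠ 0` (`t = 0`: `zero`), `e = t / ‖t‖`. Let `rho = r - dist y x0 > 0`. For `ep > 0`: `h'.app ep rho`: `l < rho`, `y' = y + l e ∈ ball x0 r` (`dist y' y = l`); `√(Q' (l e)) = dist (w' y) (w' y') ≤ dist (u y) (u y') + 2 ep l ≤ √(Q (l e) + del^2 l^2) + 2 ep l`; divide by `l` (`smul` for `Q'` and `Q`):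
`√(Q' e) ≤ √(Q e + del^2) + 2 ep`. All `ep`: `Q' e ≤ Q e + del^2`; multiply by `‖t‖^2` (`smul`).
`mdl`: `Q t = ∑ b, nn E b * ((a b).re * t.re + (a b).im * t.im)^2` is a quadratic form (expand, `Finset.sum_add_distrib`, `Finset.sum_mul`), `dst`: `dist_nm`, `ds_afm` (`BI.lean`), `app`: with `ep' = ep / (√m + 1)`, `m = finrank K V`: `ds_le_sup` (`GI.lean`; at `x = 0` both norms are `0`), `ds_comm`.
-/

set_option autoImplicit false

namespace H46NB

open H50NA MeasureTheory Set Filter Topology Metric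

variable {X : Type} [MetricSpace X] {u w : ℂ → X} {x0 : ℂ} {Q : ℂ → ℝ}

theorem semi (h : Apx u w x0 Q) {del r : ℝ} (hd : 0 < del)
    (hl : ∀ y ∈ ball x0 r, ∀ y' ∈ ball x0 r, dist (u y) (u y') ^ 2 ≤ Q (y' - y) + del ^ 2 * dist y y' ^ 2)
    {y : ℂ} (hy : y ∈ ball x0 r) {w' : ℂ → X} {Q' : ℂ → ℝ} (h' : Apx u w' y Q') (t : ℂ) :
    Q' t ≤ Q t + del ^ 2 * ‖t‖ ^ 2 := by
  by_cases ht : t = 0
  · rw [ht, h'.zero, h.zero, norm_zero]
    simp
  have hN : 0 < ‖t‖ := norm_pos_iff.2 ht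
  set N : ℝ := ‖t‖ with hNdef
  set e : ℂ := ((N⁻¹ : ℝ) : ℂ) * t with he
  have hne : ‖e‖ = 1 := by
    rw [he, norm_mul, Complex.norm_real, Real.norm_eq_abs, abs_of_pos (inv_pos.2 hN), ← hNdef]
    exact inv_mul_cancel₀ hN.ne'
  have hrho : 0 < r - dist y x0 := sub_pos.2 (mem_ball.1 hy)
  have hQe : 0 ≤ Q e := h.nn e
  have key : ∀ ep : ℝ, 0 < ep → √(Q' e) ≤ √(Q e + del ^ 2) + ep := by
    intro ep hep
    obtain ⟨l, hl0, hl1, hl2⟩ := h'.app (ep / 2) (half_pos hep) (r - dist y x0) hrho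
    have hd1 : dist (y + (l : ℂ) * e) y = l := by
      rw [dist_eq_norm, add_sub_cancel_left, norm_mul, Complex.norm_real, Real.norm_eq_abs,
        abs_of_pos hl0, hne, mul_one]
    have hy' : y + (l : ℂ) * e ∈ ball x0 r := by
      rw [mem_ball]
      have := dist_triangle (y + (l : ℂ) * e) y x0
      linarith
    have h1 := hl2 y (by rw [dist_self]; exact hl0.le)
    have h2 := hl2 (y + (l : ℂ) * e) hd1.le
    have h3 := hl y hy _ hy'
    have h4 := h'.dst y (y + (l : ℂ) * e)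
    rw [add_sub_cancel_left, h.smul, dist_comm y, hd1] at h3
    rw [add_sub_cancel_left, h'.smul] at h4
    have h5 : dist (w' y) (w' (y + (l : ℂ) * e)) = l * √(Q' e) := by
      have h6 : dist (w' y) (w' (y + (l : ℂ) * e)) = √(l ^ 2 * Q' e) := by
        rw [← h4, Real.sqrt_sq dist_nonneg]
      rw [h6, Real.sqrt_mul (sq_nonneg l), Real.sqrt_sq hl0.le]
    have h7 : dist (u y) (u (y + (l : ℂ) * e)) ≤ l * √(Q e + del ^ 2) := by
      have h8 : dist (u y) (u (y + (l : ℂ) * e)) ≤ √(l ^ 2 * (Q e + del ^ 2)) := by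
        apply Real.le_sqrt_of_sq_le
        nlinarith [h3]
      rwa [Real.sqrt_mul (sq_nonneg l), Real.sqrt_sq hl0.le] at h8
    have h9 : dist (w' y) (w' (y + (l : ℂ) * e)) ≤ dist (w' y) (u y) +
        dist (u y) (u (y + (l : ℂ) * e)) + dist (u (y + (l : ℂ) * e)) (w' (y + (l : ℂ) * e)) :=
      dist_triangle4 _ _ _ _
    rw [dist_comm (w' y) (u y), h5] at h9
    have h10 : l * √(Q' e) ≤ l * (√(Q e + del ^ 2) + ep) := by
      have : l * (√(Q e + del ^ 2) + ep) = ep / 2 * l + l * √(Q e + del ^ 2) + ep / 2 * l := by ring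
      rw [this]
      linarith
    exact le_of_mul_le_mul_left h10 hl0
  have h11 : √(Q' e) ≤ √(Q e + del ^ 2) := le_of_forall_pos_le_add key
  have h12 : Q' e ≤ Q e + del ^ 2 := by
    have h13 : 0 ≤ Q e + del ^ 2 := add_nonneg hQe (sq_nonneg _)
    exact (Real.sqrt_le_sqrt_iff h13).1 h11
  rw [he, h'.smul, h.smul] at h12
  have h14 : N ^ 2 * ((N⁻¹) ^ 2 * Q' t) ≤ N ^ 2 * ((N⁻¹) ^ 2 * Q t + del ^ 2) :=
    mul_le_mul_of_nonneg_left h12 (sq_nonneg _)
  have h15 : N ^ 2 * (N⁻¹) ^ 2 = 1 := by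
    rw [← mul_pow, mul_inv_cancel₀ hN.ne', one_pow]
  have h16 : N ^ 2 * ((N⁻¹) ^ 2 * Q' t) = Q' t := by
    rw [← mul_assoc, h15, one_mul]
  have h17 : N ^ 2 * ((N⁻¹) ^ 2 * Q t + del ^ 2) = Q t + del ^ 2 * N ^ 2 := by
    rw [mul_add, ← mul_assoc, h15, one_mul, mul_comm (N ^ 2) (del ^ 2)]
  rw [h16, h17] at h14
  exact h14

variable {K : Type} [Field K] (F : VF K) {V : Type} [AddCommGroup V] [Module K V] [Module.Finite K V]
variable {N : ℕ} {E : Fin N → Submodule K V}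

theorem mdl {v : ℂ → Nm F V} {a : Fin N → ℂ} (hB : H1NA.Blow F v x0 N E a) :
    ∃ w : ℂ → Nm F V, Apx v w x0 (fun t => ∑ b, nn E b * ((a b).re * t.re + (a b).im * t.im) ^ 2) := by
  refine ⟨fun y => ⟨H1NA.afm E (v x0).1 (fun b => (a b).re * (y - x0).re + (a b).im * (y - x0).im),
    H1NA.afm_sn F hB.int (v x0).2 _⟩, ?_, ?_, ?_⟩
  · refine ⟨∑ b, nn E b * (a b).re ^ 2, ∑ b, nn E b * ((a b).re * (a b).im),
      ∑ b, nn E b * (a b).im ^ 2, fun t => ?_⟩
    have e1 : (∑ b, nn E b * (a b).re ^ 2) * t.re ^ 2 = ∑ b, nn E b * (a b).re ^ 2 * t.re ^ 2 :=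
      Finset.sum_mul _ _ _
    have e2 : 2 * (∑ b, nn E b * ((a b).re * (a b).im)) * t.re * t.im =
        ∑ b, 2 * (nn E b * ((a b).re * (a b).im)) * t.re * t.im := by
      rw [Finset.mul_sum, Finset.sum_mul, Finset.sum_mul]
    have e3 : (∑ b, nn E b * (a b).im ^ 2) * t.im ^ 2 = ∑ b, nn E b * (a b).im ^ 2 * t.im ^ 2 :=
      Finset.sum_mul _ _ _
    rw [e1, e2, e3, ← Finset.sum_add_distrib, ← Finset.sum_add_distrib]
    exact Finset.sum_congr rfl fun b _ => by ring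
  · intro y y'
    rw [dist_nm]
    show ds F (H1NA.afm E (v x0).1 _) (H1NA.afm E (v x0).1 _) ^ 2 = _
    rw [H1NA.ds_afm F hB.int (v x0).2]
    refine Finset.sum_congr rfl fun b _ => ?_
    have e : (a b).re * (y' - x0).re + (a b).im * (y' - x0).im -
        ((a b).re * (y - x0).re + (a b).im * (y - x0).im) =
        (a b).re * (y' - y).re + (a b).im * (y' - y).im := by
      simp only [Complex.sub_re, Complex.sub_im]
      ring
    rw [e]
  · intro ep hep rho hrho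
    set m : ℝ := √(Module.finrank K V : ℝ) with hm
    have hm0 : 0 ≤ m := Real.sqrt_nonneg _
    have hm1 : 0 < m + 1 := by linarith
    obtain ⟨l, hl0, hl1, hl2⟩ := hB.app (ep / (m + 1)) (div_pos hep hm1) rho hrho
    refine ⟨l, hl0, hl1, fun y hy => ?_⟩
    have hc : 0 ≤ ep / (m + 1) * l := mul_nonneg (div_pos hep hm1).le hl0.le
    have hsn := H1NA.afm_sn F hB.int (v x0).2
      (fun b => (a b).re * (y - x0).re + (a b).im * (y - x0).im)
    have h1 := ds_le_sup F hsn (v y).2 hc (by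
      intro x
      by_cases hx : x = 0
      · rw [hx, (v y).2.1, hsn.1, sub_self, abs_zero]
        exact hc
      · exact hl2 y hy x hx)
    rw [dist_comm, dist_nm]
    refine h1.trans ?_
    rw [← hm]
    have h2 : m * (ep / (m + 1) * l) = (m / (m + 1)) * (ep * l) := by
      field_simp
    have h3 : m / (m + 1) ≤ 1 := by
      rw [div_le_one hm1]
      linarith
    rw [h2]
    exact mul_le_of_le_one_left (mul_pos hep hl0).le h3

end H46NB
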