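import Pool.Agent.H46.NB.Nd
import Pool.Agent.H46.NB.Ne
import Pool.Agent.H46.NB.Nf

/-!
MP_b319aa_NA, blocks B6, B7: the statements of the interface `Pool/Agent/H1/NA/BI.lean` (no row).
-/

set_option autoImplicit false

namespace H46NB

open H50NA MeasureTheory Set Filter Topology Metric H1NA

variable {K : Type} [Field K] (F : VF K) {V : Type} [AddCommGroup V] [Module K V] [Module.Finite K V]
variable {N : ℕ} {E : Fin N → Submodule K V} {x0 : ℂ}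

theorem dens {u : ℂ → Nm F V} {O : Set ℂ} (h : LM u O) {x0 : ℂ} (hx : x0 ∈ O) {a : Fin N → ℂ}
    (hB : Blow F u x0 N E a) (t : ℂ) :
    Tendsto (fun r : ℝ => ⨍ y in ball x0 r, sp u t y ^ 2) (𝓝[>] 0)
      (𝓝 (∑ b, nn E b * ((a b).re * t.re + (a b).im * t.im) ^ 2)) := by
  obtain ⟨w, hw⟩ := mdl F hB
  exact den (npcN F) h hx hw t

theorem lip_bd {u : ℂ → Nm F V} {O : Set ℂ} (h : LM u O) {x0 : ℂ} (hx : x0 ∈ O) {a : Fin N → ℂ}
    (hB : Blow F u x0 N E a) {del : ℝ} (hd : 0 < del) : ∃ r : ℝ, 0 < r ∧ ball x0 r ⊆ O ∧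
      ∀ y ∈ ball x0 r, ∀ y' ∈ ball x0 r, dist (u y) (u y') ^ 2 ≤
        ∑ b, nn E b * ((a b).re * (y' - y).re + (a b).im * (y' - y).im) ^ 2 + del ^ 2 * dist y y' ^ 2 := by
  obtain ⟨w, hw⟩ := mdl F hB
  exact lip (npcN F) h hx hw (fun t => den (npcN F) h hx hw t) hd

theorem den_le {u : ℂ → Nm F V} {O : Set ℂ} (h : LM u O) {x0 : ℂ} (hx : x0 ∈ O) {a : Fin N → ℂ}
    (hB : Blow F u x0 N E a) {del : ℝ} (hd : 0 < del) : ∃ r : ℝ, 0 < r ∧ ball x0 r ⊆ O ∧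
      ∀ y ∈ ball x0 r, ∀ (N' : ℕ) (E' : Fin N' → Submodule K V) (a' : Fin N' → ℂ),
        Blow F u y N' E' a' → ∀ t : ℂ, ∑ b, nn E' b * ((a' b).re * t.re + (a' b).im * t.im) ^ 2 ≤
          ∑ b, nn E b * ((a b).re * t.re + (a b).im * t.im) ^ 2 + del ^ 2 * ‖t‖ ^ 2 := by
  obtain ⟨w, hw⟩ := mdl F hB
  obtain ⟨r, hr, hrO, hl⟩ := lip (npcN F) h hx hw (fun t => den (npcN F) h hx hw t) hd
  refine ⟨r, hr, hrO, fun y hy N' E' a' hB' t => ?_⟩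
  obtain ⟨w', hw'⟩ := mdl F hB'
  exact semi hw hd hl hy hw' t

end H46NB
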