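import Pool.Agent.H50.NA.XI
import Pool.Agent.H98.NX.Ek
import Pool.Agent.H98.NX.Ej

/-!
ROW Na (MP_b319aa_NA, blocks B6, B7: affine models, abstract setting).
PROOF. `nn`: `dst 0 t`. `smul`, `rot`, `neg`: the quadratic form `qd`. `le`: `Q c ≤ Q c + Q (c I) = ‖c‖^2 (Q 1 + Q I)` (`rot`, `nn`; `c I` has real part `-c.im`, imaginary part `c.re`). `wlip`: `dst`, `le`, `Real.sqrt`
(`dist = √(Q (y' - y)) ≤ √(‖y'-y‖^2 (Q 1 + Q I))`). `wsp`: `(n + 1) dist (w (y + t/(n+1))) (w y) = √(Q t)` for all `n` (`dst`, `smul`, `neg`), so the limsup is `√(Q t)` (or `sp_eq_of_lim`). `tri`: triangle inequality for `w 0, w t, w (t + t')`.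
-/

set_option autoImplicit false

namespace H46NB

open H50NA MeasureTheory Set Filter Topology Metric

variable {X : Type} [MetricSpace X]

/-- an affine model `w` with quadratic form `Q` of the map `u` at `x0` -/
structure Apx (u w : ℂ → X) (x0 : ℂ) (Q : ℂ → ℝ) : Prop where
  qd : ∃ al be ga : ℝ, ∀ t : ℂ, Q t = al * t.re ^ 2 + 2 * be * t.re * t.im + ga * t.im ^ 2
  dst : ∀ y y' : ℂ, dist (w y) (w y') ^ 2 = Q (y' - y)
  app : ∀ ep : ℝ, 0 < ep → ∀ rho : ℝ, 0 < rho → ∃ l : ℝ, 0 < l ∧ l < rho ∧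
    ∀ y : ℂ, dist y x0 ≤ l → dist (u y) (w y) ≤ ep * l

variable {u w : ℂ → X} {x0 : ℂ} {Q : ℂ → ℝ}

theorem Apx.nn (h : Apx u w x0 Q) (t : ℂ) : 0 ≤ Q t := by
  have h1 := h.dst 0 t
  rw [sub_zero] at h1
  rw [← h1]
  exact sq_nonneg _

theorem Apx.smul (h : Apx u w x0 Q) (s : ℝ) (t : ℂ) : Q ((s : ℂ) * t) = s ^ 2 * Q t := by
  obtain ⟨al, be, ga, h1⟩ := h.qd
  rw [h1, h1]
  simp only [Complex.mul_re, Complex.mul_im, Complex.ofReal_re, Complex.ofReal_im]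
  ring

theorem Apx.neg (h : Apx u w x0 Q) (t : ℂ) : Q (-t) = Q t := by
  obtain ⟨al, be, ga, h1⟩ := h.qd
  rw [h1, h1]
  simp only [Complex.neg_re, Complex.neg_im]
  ring

theorem Apx.zero (h : Apx u w x0 Q) : Q 0 = 0 := by
  obtain ⟨al, be, ga, h1⟩ := h.qd
  rw [h1]
  simp only [Complex.zero_re, Complex.zero_im]
  ring

theorem Apx.rot (h : Apx u w x0 Q) (c : ℂ) : Q c + Q (c * Complex.I) = ‖c‖ ^ 2 * (Q 1 + Q Complex.I) := by
  obtain ⟨al, be, ga, h1⟩ := h.qd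
  rw [h1, h1, h1, h1, Complex.sq_norm, Complex.normSq_apply]
  simp only [Complex.mul_re, Complex.mul_im, Complex.I_re, Complex.I_im, Complex.one_re, Complex.one_im]
  ring

theorem Apx.le (h : Apx u w x0 Q) (c : ℂ) : Q c ≤ ‖c‖ ^ 2 * (Q 1 + Q Complex.I) := by
  have h1 := h.rot c
  have h2 := h.nn (c * Complex.I)
  linarith

theorem Apx.wlip (h : Apx u w x0 Q) (y y' : ℂ) : dist (w y) (w y') ≤ √(Q 1 + Q Complex.I) * dist y y' := by
  have h0 : 0 ≤ Q 1 + Q Complex.I := add_nonneg (h.nn _) (h.nn _)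
  apply le_of_sq_le_sq _ (mul_nonneg (Real.sqrt_nonneg _) dist_nonneg)
  rw [h.dst, mul_pow, Real.sq_sqrt h0, dist_comm, dist_eq_norm, mul_comm]
  exact h.le _

private theorem Na_dist (h : Apx u w x0 Q) (y y' : ℂ) : dist (w y) (w y') = √(Q (y' - y)) := by
  rw [← h.dst, Real.sqrt_sq dist_nonneg]

theorem Apx.wsp (h : Apx u w x0 Q) (t y : ℂ) : sp w t y ^ 2 = Q t := by
  have h1 : ∀ n : ℕ, ((n : ℝ) + 1) * dist (w (y + (1 / ((n : ℝ) + 1)) • t)) (w y) = √(Q t) := by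
    intro n
    have hn : (0 : ℝ) < (n : ℝ) + 1 := by positivity
    have e1 : y - (y + (1 / ((n : ℝ) + 1)) • t) = -(((1 / ((n : ℝ) + 1) : ℝ) : ℂ) * t) := by
      rw [Complex.real_smul]
      ring
    rw [Na_dist h, e1, h.neg, h.smul, Real.sqrt_mul (sq_nonneg _), Real.sqrt_sq (by positivity),
      ← mul_assoc, mul_one_div_cancel hn.ne', one_mul]
  unfold sp
  simp only [h1]
  rw [Filter.limsup_const, Real.sq_sqrt (h.nn t)]

theorem Apx.tri (h : Apx u w x0 Q) (t t' : ℂ) : √(Q (t + t')) ≤ √(Q t) + √(Q t') := by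
  have h1 := dist_triangle (w 0) (w t) (w (t + t'))
  rw [Na_dist h, Na_dist h, Na_dist h, sub_zero, sub_zero, add_sub_cancel_left] at h1
  exact h1

end H46NB
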