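import Pool.Agent.H46.NB.Na

/-!
ROW Nb (MP_b319aa_NA, block B6: lower bound of the energy averages).
PROOF. `Q 0 = 0` and the averages are `≥ 0`: let `t ≠ 0`. Fix `th ∈ (0, 1/2]`, `ep > 0`. `app` with `ep` and `rho = R`: `0 < l < R`, `dist (u y) (w y) ≤ ep l` for `dist y x0 ≤ l`. `s := th l / ‖t‖`. For `y ∈ ball x0 (l/2)` both `y` and `y + s t` are in `closedBall x0 l`, so
`dist (u (y + s t)) (u y) ≥ dist (w (y + s t)) (w y) - 2 ep l = s √(Q t) - 2 ep l` (`dst`, `smul`, `neg`), hence `dist (u (y + s t)) (u y)^2 ≥ s^2 k^2` with `k = max (√(Q t) - 2 ep ‖t‖ / th) 0`. `dq_le` (`XI.lean`, `r = l/2`, `s`; the integrals over `ball x0 (l/2)`: the left side is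
bounded below by the constant: integrable by continuity, `lpo_cont`): `s^2 k^2 π (l/2)^2 ≤ s^2 ∫_{ball x0 (l/2 + th l)} sp^2 = s^2 π (l/2 + th l)^2 ⨍`, and `⨍_{ball x0 (l/2 + th l)} ≤ ⨍_{ball x0 R}` (`avg_mono`). So `k^2 ≤ (1 + 2 th)^2 A`, `A = ⨍_{ball x0 R} sp u t ^2`.
`ep → 0` (continuity of `k` in `ep`, `k → √(Q t)`), then `th → 0` (both limits: `le_of_tendsto'` along `𝓝[>] 0`, or choose explicitly).
-/

set_option autoImplicit false

namespace H46NB

open H50NA MeasureTheory Set Filter Topology Metric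

variable {X : Type} [MetricSpace X] {gm : X → X → ℝ → X} {u w : ℂ → X} {x0 : ℂ} {Q : ℂ → ℝ}

theorem Nb_vol (x : ℂ) {r : ℝ} (hr : 0 ≤ r) : volume.real (ball x r) = r ^ 2 * Real.pi := by
  rw [measureReal_def, Complex.volume_ball, ENNReal.toReal_mul, ENNReal.toReal_pow,
    ENNReal.toReal_ofReal hr, ENNReal.coe_toReal, NNReal.coe_real_pi]

theorem Nb_key (hX : Npc X gm) {O : Set ℂ} (hu : LM u O) (h : Apx u w x0 Q) {t : ℂ} (ht : t ≠ 0)
    {R : ℝ} (hR : 0 < R) (hRO : closedBall x0 R ⊆ O) {th ep : ℝ} (hth : 0 < th) (hth2 : th ≤ 1 / 2)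
    (hep : 0 < ep) (hk : 0 < √(Q t) - 2 * ep * ‖t‖ / th) :
    (√(Q t) - 2 * ep * ‖t‖ / th) ^ 2 ≤ (1 + 2 * th) ^ 2 * ⨍ y in ball x0 R, sp u t y ^ 2 := by
  obtain ⟨k, hkk⟩ : ∃ k, k = √(Q t) - 2 * ep * ‖t‖ / th := ⟨_, rfl⟩
  rw [← hkk] at hk ⊢
  obtain ⟨l, hl, hlR, hl2⟩ := h.app ep hep R hR
  have hn : 0 < ‖t‖ := norm_pos_iff.2 ht
  obtain ⟨s, hs⟩ : ∃ s, s = th * l / ‖t‖ := ⟨_, rfl⟩
  have hs0 : 0 < s := by rw [hs]; positivity
  have hsn : s * ‖t‖ = th * l := by rw [hs]; field_simp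
  have hnst : ‖(s : ℂ) * t‖ = th * l := by
    rw [norm_mul, Complex.norm_real, Real.norm_of_nonneg hs0.le, hsn]
  have hthl : th * l ≤ l / 2 := by nlinarith
  have hr : 0 < l / 2 := by linarith
  have hsub : closedBall x0 (l / 2 + s * ‖t‖) ⊆ closedBall x0 R := by
    apply closedBall_subset_closedBall
    rw [hsn]
    linarith
  have hdq := dq_le hu.opn hu.lip t (x := x0) hr hs0 (hsub.trans hRO)
  have hmv : ∀ y ∈ closedBall x0 (l / 2), y + (s : ℂ) * t ∈ closedBall x0 l := by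
    intro y hy
    rw [mem_closedBall] at hy ⊢
    calc dist (y + (s : ℂ) * t) x0 ≤ dist (y + (s : ℂ) * t) y + dist y x0 := dist_triangle _ _ _
      _ ≤ l / 2 + l / 2 := by
        apply add_le_add _ hy
        rw [dist_eq_norm, add_sub_cancel_left, hnst]
        exact hthl
      _ = l := by ring
  have hlow : ∀ y ∈ ball x0 (l / 2), (s * k) ^ 2 ≤ dist (u (y + (s : ℂ) * t)) (u y) ^ 2 := by
    intro y hy
    have hyc : y ∈ closedBall x0 (l / 2) := ball_subset_closedBall hy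
    have h1 := hl2 y (by rw [mem_closedBall] at hyc; linarith)
    have h2 := hl2 (y + (s : ℂ) * t) (mem_closedBall.1 (hmv y hyc))
    have h3 : dist (w (y + (s : ℂ) * t)) (w y) = s * √(Q t) := by
      have h4 := h.dst (y + (s : ℂ) * t) y
      have h5 : y - (y + (s : ℂ) * t) = -((s : ℂ) * t) := by ring
      rw [h5, h.neg, h.smul] at h4
      rw [← Real.sqrt_sq (dist_nonneg : 0 ≤ dist (w (y + (s : ℂ) * t)) (w y)), h4,
        Real.sqrt_mul (sq_nonneg s), Real.sqrt_sq hs0.le]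
    have h6 : s * k = s * √(Q t) - 2 * (ep * l) := by
      have h7 : s * (2 * ep * ‖t‖ / th) = 2 * (ep * l) := by
        have h8 : s * (2 * ep * ‖t‖ / th) = 2 * ep * (s * ‖t‖) / th := by ring
        rw [h8, hsn]
        field_simp
      rw [hkk, mul_sub, h7]
    have h9 : dist (w (y + (s : ℂ) * t)) (w y) ≤ dist (u (y + (s : ℂ) * t)) (w (y + (s : ℂ) * t)) +
        dist (u (y + (s : ℂ) * t)) (u y) + dist (u y) (w y) := by
      have h10 := dist_triangle4 (w (y + (s : ℂ) * t)) (u (y + (s : ℂ) * t)) (u y) (w y)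
      rw [dist_comm (w (y + (s : ℂ) * t)) (u (y + (s : ℂ) * t))] at h10
      exact h10
    have h11 : s * k ≤ dist (u (y + (s : ℂ) * t)) (u y) := by
      rw [h6, ← h3]
      linarith
    exact pow_le_pow_left₀ (mul_pos hs0 hk).le h11 2
  have hcu := H98NX.lpo_cont hu.opn hu.lip
  have hlO : closedBall x0 l ⊆ O := (closedBall_subset_closedBall hlR.le).trans hRO
  have hcont : ContinuousOn (fun y => dist (u (y + (s : ℂ) * t)) (u y) ^ 2)
      (closedBall x0 (l / 2)) := by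
    apply ContinuousOn.pow
    refine continuous_dist.comp_continuousOn (ContinuousOn.prodMk ?_ ?_)
    · refine ContinuousOn.comp (t := closedBall x0 l) (hcu.mono hlO) (by fun_prop) ?_
      intro y hy
      exact hmv y hy
    · exact hcu.mono ((closedBall_subset_closedBall (by linarith)).trans hlO)
  have hint : IntegrableOn (fun y => dist (u (y + (s : ℂ) * t)) (u y) ^ 2) (ball x0 (l / 2)) :=
    (hcont.integrableOn_compact (isCompact_closedBall _ _)).mono_set ball_subset_closedBall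
  have hc1 : ∫ _y in ball x0 (l / 2), (s * k) ^ 2 ≤
      ∫ y in ball x0 (l / 2), dist (u (y + (s : ℂ) * t)) (u y) ^ 2 :=
    setIntegral_mono_on (integrableOn_const measure_ball_lt_top.ne) hint measurableSet_ball hlow
  rw [setIntegral_const, Nb_vol x0 hr.le, smul_eq_mul] at hc1
  have hr' : 0 < l / 2 + s * ‖t‖ := by positivity
  have havg := avg_mono hX hu t x0 hr' (R := R) (by rw [hsn]; linarith) hRO
  have hv : (0 : ℝ) < volume.real (ball x0 (l / 2 + s * ‖t‖)) := by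
    rw [Nb_vol x0 hr'.le]
    positivity
  have hI : ∫ y in ball x0 (l / 2 + s * ‖t‖), sp u t y ^ 2 ≤
      ((l / 2 + s * ‖t‖) ^ 2 * Real.pi) * ⨍ y in ball x0 R, sp u t y ^ 2 := by
    rw [← Nb_vol x0 hr'.le]
    rw [setAverage_eq, smul_eq_mul, inv_mul_le_iff₀ hv] at havg
    exact havg
  have hfin := (hc1.trans hdq).trans (mul_le_mul_of_nonneg_left hI (sq_nonneg s))
  rw [hsn] at hfin
  have hpos : 0 < s ^ 2 * ((l / 2) ^ 2 * Real.pi) := by positivity
  have e1 : (l / 2) ^ 2 * Real.pi * (s * k) ^ 2 = (s ^ 2 * ((l / 2) ^ 2 * Real.pi)) * k ^ 2 := by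
    ring
  have e2 : s ^ 2 * ((l / 2 + th * l) ^ 2 * Real.pi * ⨍ y in ball x0 R, sp u t y ^ 2) =
      (s ^ 2 * ((l / 2) ^ 2 * Real.pi)) *
        ((1 + 2 * th) ^ 2 * ⨍ y in ball x0 R, sp u t y ^ 2) := by
    ring
  rw [e1, e2] at hfin
  exact le_of_mul_le_mul_left hfin hpos

theorem low (hX : Npc X gm) {O : Set ℂ} (hu : LM u O) (h : Apx u w x0 Q) (t : ℂ) {R : ℝ} (hR : 0 < R)
    (hRO : closedBall x0 R ⊆ O) : Q t ≤ ⨍ y in ball x0 R, sp u t y ^ 2 := by
  have hA : 0 ≤ ⨍ y in ball x0 R, sp u t y ^ 2 := by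
    rw [setAverage_eq, smul_eq_mul]
    exact mul_nonneg (inv_nonneg.2 measureReal_nonneg) (integral_nonneg fun y => sq_nonneg _)
  by_cases ht : t = 0
  · rw [ht, h.zero]
    rw [ht] at hA
    exact hA
  obtain ⟨A, hAA⟩ : ∃ A, A = ⨍ y in ball x0 R, sp u t y ^ 2 := ⟨_, rfl⟩
  rw [← hAA] at hA ⊢
  have h1 : ∀ th : ℝ, 0 < th → th ≤ 1 / 2 → √(Q t) ≤ (1 + 2 * th) * √A := by
    intro th hth hth2
    apply le_of_forall_pos_le_add
    intro e he
    have hn : 0 < ‖t‖ := norm_pos_iff.2 ht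
    have hep : 0 < e * th / (2 * ‖t‖) := by positivity
    have h2 : 2 * (e * th / (2 * ‖t‖)) * ‖t‖ / th = e := by
      field_simp
    by_cases hk : 0 < √(Q t) - e
    · have h3 := Nb_key hX hu h ht hR hRO hth hth2 hep (by rw [h2]; exact hk)
      rw [h2, ← hAA] at h3
      have h4 : (1 + 2 * th) ^ 2 * A = ((1 + 2 * th) * √A) ^ 2 := by
        rw [mul_pow, Real.sq_sqrt hA]
      rw [h4] at h3
      have h5 : 0 ≤ (1 + 2 * th) * √A := by positivity
      have h6 := (sq_le_sq₀ hk.le h5).1 h3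
      linarith
    · have h5 : 0 ≤ (1 + 2 * th) * √A := by positivity
      linarith
  have h7 : √(Q t) ≤ √A := by
    apply le_of_forall_pos_le_add
    intro e he
    have hpos : 0 < 2 * √A + 2 * e + 1 := by positivity
    have h8 := h1 (e / (2 * √A + 2 * e + 1)) (by positivity) (by
      rw [div_le_div_iff₀ hpos (by norm_num)]
      have := Real.sqrt_nonneg A
      linarith)
    have h9 : 2 * (e / (2 * √A + 2 * e + 1)) * √A ≤ e := by
      have h10 : 2 * (e / (2 * √A + 2 * e + 1)) * √A = e * (2 * √A / (2 * √A + 2 * e + 1)) := by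
        ring
      rw [h10]
      have h11 : 2 * √A / (2 * √A + 2 * e + 1) ≤ 1 := by
        rw [div_le_one hpos]
        linarith
      nlinarith
    linarith
  have h12 := pow_le_pow_left₀ (Real.sqrt_nonneg _) h7 2
  rwa [Real.sq_sqrt (h.nn t), Real.sq_sqrt hA] at h12

end H46NB
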