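import Pool.Agent.H46.NB.Na

/-!
ROW Nc (MP_b319aa_NA, block B6: the competitor).
PROOF. `et y := max 0 (min 1 (((1 - th/2) l - dist y x0) * (2 / (th l))))`: values in `[0,1]`, Lipschitz with constant `2/(th l)`, `= 1` on `closedBall x0 ((1-th) l)`, `= 0` off `ball x0 ((1 - th/2) l)`.
`g y := gm (u y) (w y) (et y)`: in `Lpo g O` (`lpo_gm`, `lpo_lip`, `hu.lip`; `w` is Lipschitz), `g = u` off `C := closedBall x0 ((1 - th/2) l)` (`hX.zero`), so `en u C ≤ en g C` (`hu.min`; `C ⊆ closedBall x0 l ⊆ O` is compact).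
For `y ∈ ball x0 ((1-th) l)`: `g = w` near `y`, so `sp g t y = sp w t y` (`sp_loc`), `sp g 1 y ^2 + sp g I y ^2 = Q 1 + Q I` (`wsp`). For `y, y' ∈ closedBall x0 l`: `dist (g y) (g y') ≤ dist (u y) (u y') + dist (w y) (w y') + |et y - et y'| dist (u y') (w y') ≤ (L + Lw + 2) dist y y'` (`int_tri`),
`Lw = √(Q 1 + Q I)`; so `sp g t y ≤ (L + Lw + 2) ‖t‖` for `y ∈ C` (`sp_le`: a small ball around `y` is in `closedBall x0 l`). Split `C = ball x0 ((1-th) l) ∪ (C \ ball x0 ((1-th) l))`; volumes `π ((1-th) l)^2` and `π l^2 ((1-th/2)^2 - (1-th)^2) ≤ π l^2 th` (`Complex.volume_ball`,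
`Complex.volume_closedBall`); integrability of all functions: `sp_sq_int`. Finally `∫_{ball} (sp u 1^2 + sp u I^2) ≤ en u C`.
-/

/-!
ROW Nc (MP_b319aa_NA, block B6: the competitor).
PROOF. `et y := max 0 (min 1 (((1 - th/2) l - dist y x0) * (2 / (th l))))`: values in `[0,1]`, Lipschitz with constant `2/(th l)`, `= 1` on `closedBall x0 ((1-th) l)`, `= 0` off `ball x0 ((1 - th/2) l)`.
`g y := gm (u y) (w y) (et y)`: in `Lpo g O` (`lpo_gm`, `lpo_lip`, `hu.lip`; `w` is Lipschitz), `g = u` off `C := closedBall x0 ((1 - th/2) l)` (`hX.zero`), so `en u C ≤ en g C` (`hu.min`; `C ⊆ closedBall x0 l ⊆ O` is compact).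
For `y ∈ ball x0 ((1-th) l)`: `g = w` near `y`, so `sp g t y = sp w t y` (`sp_loc`), `sp g 1 y ^2 + sp g I y ^2 = Q 1 + Q I` (`wsp`). For `y, y' ∈ closedBall x0 l`: `dist (g y) (g y') ≤ dist (u y) (u y') + dist (w y) (w y') + |et y - et y'| dist (u y') (w y') ≤ (L + Lw + 2) dist y y'` (`int_tri`),
`Lw = √(Q 1 + Q I)`; so `sp g t y ≤ (L + Lw + 2) ‖t‖` for `y ∈ C` (`sp_le`: a small ball around `y` is in `closedBall x0 l`). Split `C = ball x0 ((1-th) l) ∪ (C \ ball x0 ((1-th) l))`; volumes `π ((1-th) l)^2` and `π l^2 ((1-th/2)^2 - (1-th)^2) ≤ π l^2 th` (`Complex.volume_ball`,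
`Complex.volume_closedBall`); integrability of all functions: `sp_sq_int`. Finally `∫_{ball} (sp u 1^2 + sp u I^2) ≤ en u C`.
-/

set_option autoImplicit false

namespace H46NB

open H50NA H98NX MeasureTheory Set Filter Topology Metric

variable {X : Type} [MetricSpace X] {gm : X → X → ℝ → X} {u w : ℂ → X} {x0 : ℂ} {Q : ℂ → ℝ}

/-- the cut off function -/
private noncomputable def Nc_et (x0 : ℂ) (b c : ℝ) (y : ℂ) : ℝ := max 0 (min 1 ((b - dist y x0) * c))

private theorem Nc_01 (x0 : ℂ) (b c : ℝ) (y : ℂ) : 0 ≤ Nc_et x0 b c y ∧ Nc_et x0 b c y ≤ 1 :=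
  ⟨le_max_left _ _, max_le zero_le_one (min_le_left _ _)⟩

private theorem Nc_lip (x0 : ℂ) (b : ℝ) {c : ℝ} (hc : 0 ≤ c) (y y' : ℂ) :
    |Nc_et x0 b c y - Nc_et x0 b c y'| ≤ c * dist y y' := by
  rw [Nc_et, Nc_et]
  refine (abs_max_sub_max_le_max _ _ _ _).trans ?_
  rw [sub_self, abs_zero, max_eq_right (abs_nonneg _)]
  refine (abs_min_sub_min_le_max _ _ _ _).trans ?_
  rw [sub_self, abs_zero, max_eq_right (abs_nonneg _), ← sub_mul, abs_mul, abs_of_nonneg hc, mul_comm]
  apply mul_le_mul_of_nonneg_left _ hc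
  have h1 : b - dist y x0 - (b - dist y' x0) = dist y' x0 - dist y x0 := by ring
  rw [h1, abs_sub_comm]
  exact abs_dist_sub_le y y' x0

private theorem Nc_one (x0 : ℂ) {b c : ℝ} {y : ℂ} (h : 1 ≤ (b - dist y x0) * c) :
    Nc_et x0 b c y = 1 := by
  rw [Nc_et, min_eq_left h]
  exact max_eq_right zero_le_one

private theorem Nc_zero (x0 : ℂ) {b c : ℝ} (hc : 0 ≤ c) {y : ℂ} (h : b ≤ dist y x0) :
    Nc_et x0 b c y = 0 := by
  have h1 : (b - dist y x0) * c ≤ 0 := mul_nonpos_of_nonpos_of_nonneg (by linarith) hc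
  rw [Nc_et, max_eq_left ((min_le_right _ _).trans h1)]

private theorem Nc_vol (x0 : ℂ) {r : ℝ} (hr : 0 ≤ r) : volume.real (ball x0 r) = Real.pi * r ^ 2 := by
  rw [measureReal_def, Complex.volume_ball, ENNReal.toReal_mul, ENNReal.toReal_pow,
    ENNReal.toReal_ofReal hr, mul_comm]
  rfl

private theorem Nc_volc (x0 : ℂ) {r : ℝ} (hr : 0 ≤ r) :
    volume.real (closedBall x0 r) = Real.pi * r ^ 2 := by
  rw [measureReal_def, Complex.volume_closedBall, ENNReal.toReal_mul, ENNReal.toReal_pow,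
    ENNReal.toReal_ofReal hr, mul_comm]
  rfl

theorem comp (hX : Npc X gm) {O : Set ℂ} (hu : LM u O) (h : Apx u w x0 Q) {th l L : ℝ} (h0 : 0 < th) (h1 : th < 1)
    (hl : 0 < l) (hlO : closedBall x0 l ⊆ O) (hL0 : 0 ≤ L)
    (hL : ∀ y ∈ closedBall x0 l, ∀ y' ∈ closedBall x0 l, dist (u y) (u y') ≤ L * dist y y')
    (ha : ∀ y, dist y x0 ≤ l → dist (u y) (w y) ≤ th * l) :
    ∫ y in ball x0 ((1 - th / 2) * l), (sp u 1 y ^ 2 + sp u Complex.I y ^ 2) ≤
      Real.pi * ((1 - th) * l) ^ 2 * (Q 1 + Q Complex.I) +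
        Real.pi * l ^ 2 * th * (2 * (L + √(Q 1 + Q Complex.I) + 2) ^ 2) := by
  obtain ⟨a, haa⟩ : ∃ a : ℝ, a = (1 - th) * l := ⟨_, rfl⟩
  obtain ⟨b, hbb⟩ : ∃ b : ℝ, b = (1 - th / 2) * l := ⟨_, rfl⟩
  obtain ⟨c, hcc⟩ : ∃ c : ℝ, c = 2 / (th * l) := ⟨_, rfl⟩
  obtain ⟨W, hW⟩ : ∃ W : ℝ, W = √(Q 1 + Q Complex.I) := ⟨_, rfl⟩
  rw [← haa, ← hbb, ← hW]
  have hthl : 0 < th * l := mul_pos h0 hl
  have ha0 : 0 < a := by rw [haa]; exact mul_pos (by linarith) hl
  have hab : b - a = th * l / 2 := by rw [haa, hbb]; ring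
  have hbl : l - b = th * l / 2 := by rw [hbb]; ring
  have hb0 : 0 < b := by linarith
  have hc0 : 0 < c := by rw [hcc]; positivity
  have hcth : c * (th * l) = 2 := by
    rw [hcc]
    field_simp
  have hW0 : 0 ≤ W := by rw [hW]; exact Real.sqrt_nonneg _
  have hwl : ∀ y y' : ℂ, dist (w y) (w y') ≤ W * dist y y' := by
    rw [hW]
    exact h.wlip
  obtain ⟨g, hg⟩ : ∃ g : ℂ → X, g = fun y => gm (u y) (w y) (Nc_et x0 b c y) := ⟨_, rfl⟩
  have hgO : Lpo g O := by
    rw [hg]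
    exact lpo_gm hX hu.lip (fun _ _ _ => ⟨W, fun y _ y' _ => hwl y y'⟩)
      (lpo_lip (fun y y' => Nc_lip x0 b hc0.le y y') O) (fun y _ => Nc_01 x0 b c y)
  have hCl : closedBall x0 b ⊆ closedBall x0 l := closedBall_subset_closedBall (by linarith)
  have hCO : closedBall x0 b ⊆ O := hCl.trans hlO
  have hCc : IsCompact (closedBall x0 b) := isCompact_closedBall x0 b
  have hCm : MeasurableSet (closedBall x0 b) := measurableSet_closedBall
  have hmin : en u (closedBall x0 b) ≤ en g (closedBall x0 b) := by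
    refine hu.min _ hCO hCc g hgO ?_
    intro x hx
    have h2 : b ≤ dist x x0 := by
      have h3 := hx.2
      rw [mem_closedBall, not_le] at h3
      exact h3.le
    rw [hg]
    simp only
    rw [Nc_zero x0 hc0.le h2, hX.zero]
  -- Lipschitz bound for the competitor
  have hgl : ∀ y ∈ closedBall x0 l, ∀ y' ∈ closedBall x0 l, dist (g y) (g y') ≤
      (L + W + 2) * dist y y' := by
    intro y hy y' hy'
    obtain ⟨s0, s1⟩ := Nc_01 x0 b c y
    obtain ⟨t0, t1⟩ := Nc_01 x0 b c y'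
    have e1 := int_tri hX (u y) (u y') (w y) (w y') s0 s1 t0 t1
    have e2 := hL y hy y' hy'
    have e3 := hwl y y'
    have e4 := Nc_lip x0 b hc0.le y y'
    have e5 := ha y' (mem_closedBall.1 hy')
    have hd : 0 ≤ dist y y' := dist_nonneg
    rw [hg]
    simp only
    refine e1.trans ?_
    have f1 : (1 - Nc_et x0 b c y) * dist (u y) (u y') ≤ L * dist y y' :=
      (mul_le_of_le_one_left dist_nonneg (by linarith)).trans e2
    have f2 : Nc_et x0 b c y * dist (w y) (w y') ≤ W * dist y y' :=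
      (mul_le_of_le_one_left dist_nonneg s1).trans e3
    have f3 : |Nc_et x0 b c y - Nc_et x0 b c y'| * dist (u y') (w y') ≤ 2 * dist y y' := by
      calc |Nc_et x0 b c y - Nc_et x0 b c y'| * dist (u y') (w y') ≤
            (c * dist y y') * (th * l) :=
            mul_le_mul e4 e5 dist_nonneg (by positivity)
        _ = c * (th * l) * dist y y' := by ring
        _ = 2 * dist y y' := by rw [hcth]
    linarith
  have hspg : ∀ t : ℂ, ∀ y ∈ closedBall x0 b, sp g t y ≤ (L + W + 2) * ‖t‖ := by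
    intro t y hy
    refine sp_le (r := l - b) (by linarith) ?_ t
    intro z hz
    refine hgl z ?_ y (hCl hy)
    rw [mem_ball] at hz
    rw [mem_closedBall] at hy ⊢
    have := dist_triangle z y x0
    linarith
  have hF : ∀ y ∈ closedBall x0 b, sp g 1 y ^ 2 + sp g Complex.I y ^ 2 ≤ 2 * (L + W + 2) ^ 2 := by
    intro y hy
    have e1 := hspg 1 y hy
    have e2 := hspg Complex.I y hy
    rw [norm_one, mul_one] at e1
    rw [Complex.norm_I, mul_one] at e2
    have e3 := pow_le_pow_left₀ (sp_nonneg g 1 y) e1 2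
    have e4 := pow_le_pow_left₀ (sp_nonneg g Complex.I y) e2 2
    linarith
  have hFb : ∀ y ∈ ball x0 a, sp g 1 y ^ 2 + sp g Complex.I y ^ 2 = Q 1 + Q Complex.I := by
    intro y hy
    have hev : g =ᶠ[𝓝 y] w := by
      filter_upwards [isOpen_ball.mem_nhds hy] with z hz
      rw [mem_ball] at hz
      rw [hg]
      simp only
      have e1 : 1 ≤ (b - dist z x0) * c := by
        have e2 : th * l / 2 ≤ b - dist z x0 := by linarith
        calc (1 : ℝ) = th * l / 2 * c := by linarith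
          _ ≤ (b - dist z x0) * c := mul_le_mul_of_nonneg_right e2 hc0.le
      rw [Nc_one x0 e1, hX.one]
    rw [sp_loc hev, sp_loc hev, h.wsp, h.wsp]
  have hint : ∀ f : ℂ → X, Lpo f O → IntegrableOn (fun y => sp f 1 y ^ 2 + sp f Complex.I y ^ 2)
      (closedBall x0 b) := by
    intro f hf
    exact (sp_sq_int volume hu.opn hf hCc hCO hCm subset_rfl 1).1.add
      (sp_sq_int volume hu.opn hf hCc hCO hCm subset_rfl Complex.I).1
  have hsub : ball x0 a ⊆ closedBall x0 b :=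
    ball_subset_closedBall.trans (closedBall_subset_closedBall (by linarith))
  have hsplit : en g (closedBall x0 b) =
      (∫ y in ball x0 a, (sp g 1 y ^ 2 + sp g Complex.I y ^ 2)) +
      ∫ y in closedBall x0 b \ ball x0 a, (sp g 1 y ^ 2 + sp g Complex.I y ^ 2) := by
    rw [en, ← integral_inter_add_sdiff (t := ball x0 a) measurableSet_ball (hint g hgO),
      inter_eq_right.2 hsub]
  have hI1 : (∫ y in ball x0 a, (sp g 1 y ^ 2 + sp g Complex.I y ^ 2)) =
      Real.pi * a ^ 2 * (Q 1 + Q Complex.I) := by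
    rw [setIntegral_congr_fun measurableSet_ball hFb, setIntegral_const, smul_eq_mul,
      Nc_vol x0 ha0.le]
  have hdm : MeasurableSet (closedBall x0 b \ ball x0 a) := hCm.diff measurableSet_ball
  have hvd : volume.real (closedBall x0 b \ ball x0 a) ≤ Real.pi * l ^ 2 * th := by
    rw [measureReal_sdiff hsub measurableSet_ball measure_closedBall_lt_top.ne, Nc_volc x0 hb0.le, Nc_vol x0 ha0.le, haa, hbb]
    have e1 : Real.pi * ((1 - th / 2) * l) ^ 2 - Real.pi * ((1 - th) * l) ^ 2 =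
        Real.pi * l ^ 2 * th - Real.pi * l ^ 2 * (3 / 4 * th ^ 2) := by ring
    rw [e1]
    have e2 : 0 ≤ Real.pi * l ^ 2 * (3 / 4 * th ^ 2) := by positivity
    linarith
  have hI2 : (∫ y in closedBall x0 b \ ball x0 a, (sp g 1 y ^ 2 + sp g Complex.I y ^ 2)) ≤
      Real.pi * l ^ 2 * th * (2 * (L + W + 2) ^ 2) := by
    have e1 : (∫ y in closedBall x0 b \ ball x0 a, (sp g 1 y ^ 2 + sp g Complex.I y ^ 2)) ≤
        ∫ _y in closedBall x0 b \ ball x0 a, (2 * (L + W + 2) ^ 2 : ℝ) := by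
      refine setIntegral_mono_on ((hint g hgO).mono_set sdiff_subset) ?_ hdm
        (fun y hy => hF y hy.1)
      exact integrableOn_const (measure_ne_top_of_subset sdiff_subset measure_closedBall_lt_top.ne)
    refine e1.trans ?_
    rw [setIntegral_const, smul_eq_mul]
    exact mul_le_mul_of_nonneg_right hvd (by positivity)
  have hfin : (∫ y in ball x0 b, (sp u 1 y ^ 2 + sp u Complex.I y ^ 2)) ≤ en u (closedBall x0 b) := by
    rw [en]
    refine setIntegral_mono_set (hint u hu.lip) ?_ (ball_subset_closedBall.eventuallyLE)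
    exact Eventually.of_forall fun y => by positivity
  calc (∫ y in ball x0 b, (sp u 1 y ^ 2 + sp u Complex.I y ^ 2)) ≤ en u (closedBall x0 b) := hfin
    _ ≤ en g (closedBall x0 b) := hmin
    _ ≤ _ := by
      rw [hsplit, hI1]
      linarith

end H46NB
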