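import Pool.Agent.H46.NB.Nb
import Pool.Agent.H46.NB.Nc
import Pool.Agent.H98.NX.Eh

/-!
ROW Nd (MP_b319aa_NA, block B6: the densities).
PROOF. Let `A t r = ⨍ y in ball x0 r, sp u t y ^ 2`, `R0 > 0` with `closedBall x0 R0 ⊆ O` and `L ≥ 0` a Lipschitz constant of `u` there (`lpo_ball`). `A t` is nondecreasing on `(0, R0]` (`avg_mono`) and `≥ Q t` (`low`).
`up2`: `th ∈ (0,1)`: `app` with `ep = th` and `rho = min R0 rho`: `l`; with `r = (1 - th/2) l`: `A 1 r + A I r ≤ (Q 1 + Q I) ((1-th)/(1-th/2))^2 + th (2 (L + .. + 2)^2) / (1-th/2)^2 ≤ Q 1 + Q I + 8 th (L + .. + 2)^2` (`comp`, `Complex.volume_ball`, `setAverage_eq`).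
Since `A 1`, `A I` are nondecreasing: for every `e > 0` there is `r > 0` with `A 1 s + A I s ≤ Q 1 + Q I + e` for `0 < s ≤ r`.
`upt`: by `sp_rot` (a.e. point has `MD`, `md_ae`): `A t s + A (t I) s = ‖t‖^2 (A 1 s + A I s) ≤ ‖t‖^2 (Q 1 + Q I) + ‖t‖^2 e = Q t + Q (t I) + ‖t‖^2 e` (`rot`) and `A (t I) s ≥ Q (t I)` (`low`): `A t s ≤ Q t + ‖t‖^2 e`. `den`: `low`, `upt`.
-/

set_option autoImplicit false

namespace H46NB

open H50NA H98NX MeasureTheory Set Filter Topology Metric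

variable {X : Type} [MetricSpace X] {gm : X → X → ℝ → X} {u w : ℂ → X} {x0 : ℂ} {Q : ℂ → ℝ}

private theorem Nd_avg (H : ℂ → ℝ) (c : ℂ) {s : ℝ} (hs : 0 < s) :
    ⨍ y in ball c s, H y = (Real.pi * s ^ 2)⁻¹ * ∫ y in ball c s, H y := by
  have hv : (volume : Measure ℂ).real (ball c s) = Real.pi * s ^ 2 := by
    rw [Measure.real, Complex.volume_ball, ENNReal.toReal_mul, ENNReal.toReal_pow, ENNReal.toReal_ofReal hs.le]
    simp [mul_comm]
  rw [setAverage_eq, hv, smul_eq_mul]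

private theorem Nd_int {O : Set ℂ} (hu : LM u O) {s : ℝ} (hs : closedBall x0 s ⊆ O) (t : ℂ) :
    IntegrableOn (fun y => sp u t y ^ 2) (ball x0 s) :=
  (H98NX.sp_sq_int volume hu.opn hu.lip (isCompact_closedBall x0 s) hs measurableSet_ball
    ball_subset_closedBall t).1

private theorem Nd_add {O : Set ℂ} (hu : LM u O) {s : ℝ} (hs0 : 0 < s) (hs : closedBall x0 s ⊆ O) (t t' : ℂ) :
    (⨍ y in ball x0 s, sp u t y ^ 2) + (⨍ y in ball x0 s, sp u t' y ^ 2) =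
      (Real.pi * s ^ 2)⁻¹ * ∫ y in ball x0 s, (sp u t y ^ 2 + sp u t' y ^ 2) := by
  rw [Nd_avg _ _ hs0, Nd_avg _ _ hs0, integral_add (Nd_int hu hs t) (Nd_int hu hs t'), mul_add]

theorem up2 (hX : Npc X gm) {O : Set ℂ} (hu : LM u O) (hx : x0 ∈ O) (h : Apx u w x0 Q) {e : ℝ} (he : 0 < e) :
    ∃ r : ℝ, 0 < r ∧ closedBall x0 r ⊆ O ∧ ∀ s : ℝ, 0 < s → s ≤ r →
      (⨍ y in ball x0 s, sp u 1 y ^ 2) + (⨍ y in ball x0 s, sp u Complex.I y ^ 2) ≤ Q 1 + Q Complex.I + e := by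
  obtain ⟨R0, hR0, hRO, L, hL0, hL⟩ := lpo_ball hu.opn hu.lip hx
  have hQ : 0 ≤ Q 1 + Q Complex.I := add_nonneg (h.nn 1) (h.nn Complex.I)
  set K : ℝ := L + √(Q 1 + Q Complex.I) + 2 with hK
  have hK2 : 2 ≤ K := by
    have := Real.sqrt_nonneg (Q 1 + Q Complex.I)
    linarith
  set th : ℝ := min (1 / 2) (e / (8 * K ^ 2)) with hth
  have hth0 : 0 < th := lt_min (by norm_num) (by positivity)
  have hth1 : th ≤ 1 / 2 := min_le_left _ _
  have hthe : th * (8 * K ^ 2) ≤ e := by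
    have := min_le_right (1 / 2 : ℝ) (e / (8 * K ^ 2))
    rwa [le_div_iff₀ (by positivity)] at this
  obtain ⟨l, hl0, hlR, happ⟩ := h.app th hth0 R0 hR0
  have hlO : closedBall x0 l ⊆ O := (closedBall_subset_closedBall hlR.le).trans hRO
  have hc := comp hX hu h hth0 (by linarith) hl0 hlO hL0
    (fun y hy y' hy' => hL y (closedBall_subset_closedBall hlR.le hy) y' (closedBall_subset_closedBall hlR.le hy'))
    happ
  have hs0 : 0 < (1 - th / 2) * l := mul_pos (by linarith) hl0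
  have hsl : (1 - th / 2) * l ≤ l := by nlinarith
  have hsO : closedBall x0 ((1 - th / 2) * l) ⊆ O := (closedBall_subset_closedBall hsl).trans hlO
  refine ⟨(1 - th / 2) * l, hs0, hsO, fun s hs hsr => ?_⟩
  have m1 := avg_mono hX hu 1 x0 hs hsr hsO
  have m2 := avg_mono hX hu Complex.I x0 hs hsr hsO
  refine (add_le_add m1 m2).trans ?_
  rw [Nd_add hu hs0 hsO, inv_mul_le_iff₀ (by positivity)]
  refine hc.trans ?_
  have hpi := Real.pi_pos
  have e1 : Real.pi * ((1 - th) * l) ^ 2 * (Q 1 + Q Complex.I) ≤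
      Real.pi * ((1 - th / 2) * l) ^ 2 * (Q 1 + Q Complex.I) := by
    refine mul_le_mul_of_nonneg_right (mul_le_mul_of_nonneg_left ?_ hpi.le) hQ
    refine pow_le_pow_left₀ (mul_nonneg (by linarith) hl0.le) ?_ 2
    exact mul_le_mul_of_nonneg_right (by linarith) hl0.le
  have e2 : Real.pi * l ^ 2 * th * (2 * K ^ 2) ≤ Real.pi * ((1 - th / 2) * l) ^ 2 * e := by
    have h1 : (1 / 4 : ℝ) ≤ (1 - th / 2) ^ 2 := by nlinarith
    have h2 : th * (2 * K ^ 2) ≤ (1 - th / 2) ^ 2 * e := by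
      calc th * (2 * K ^ 2) = 1 / 4 * (th * (8 * K ^ 2)) := by ring
        _ ≤ 1 / 4 * e := by linarith
        _ ≤ (1 - th / 2) ^ 2 * e := mul_le_mul_of_nonneg_right h1 he.le
    calc Real.pi * l ^ 2 * th * (2 * K ^ 2) = Real.pi * l ^ 2 * (th * (2 * K ^ 2)) := by ring
      _ ≤ Real.pi * l ^ 2 * ((1 - th / 2) ^ 2 * e) := mul_le_mul_of_nonneg_left h2 (by positivity)
      _ = Real.pi * ((1 - th / 2) * l) ^ 2 * e := by ring
  calc _ ≤ Real.pi * ((1 - th / 2) * l) ^ 2 * (Q 1 + Q Complex.I) + Real.pi * ((1 - th / 2) * l) ^ 2 * e :=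
        add_le_add e1 e2
    _ = _ := by ring

theorem upt (hX : Npc X gm) {O : Set ℂ} (hu : LM u O) (hx : x0 ∈ O) (h : Apx u w x0 Q) (t : ℂ) {e : ℝ}
    (he : 0 < e) :
    ∃ r : ℝ, 0 < r ∧ closedBall x0 r ⊆ O ∧ ∀ s : ℝ, 0 < s → s ≤ r →
      (⨍ y in ball x0 s, sp u t y ^ 2) ≤ Q t + e := by
  obtain ⟨r, hr0, hrO, hr⟩ := up2 hX hu hx h (e := e / (‖t‖ ^ 2 + 1)) (by positivity)
  refine ⟨r, hr0, hrO, fun s hs hsr => ?_⟩
  have hsO : closedBall x0 s ⊆ O := (closedBall_subset_closedBall hsr).trans hrO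
  have h1 := hr s hs hsr
  have h2 := low hX hu h (t * Complex.I) hs hsO
  have h3 := h.rot t
  have h4 : (⨍ y in ball x0 s, sp u t y ^ 2) + (⨍ y in ball x0 s, sp u (t * Complex.I) y ^ 2) =
      ‖t‖ ^ 2 * ((⨍ y in ball x0 s, sp u 1 y ^ 2) + (⨍ y in ball x0 s, sp u Complex.I y ^ 2)) := by
    rw [Nd_add hu hs hsO, Nd_add hu hs hsO]
    have h5 : ∫ y in ball x0 s, (sp u t y ^ 2 + sp u (t * Complex.I) y ^ 2) =
        ∫ y in ball x0 s, ‖t‖ ^ 2 * (sp u 1 y ^ 2 + sp u Complex.I y ^ 2) := by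
      refine setIntegral_congr_ae measurableSet_ball ?_
      filter_upwards [md_ae volume hX hu.opn hu.lip] with y hy hyb
      exact sp_rot (hy (hsO (ball_subset_closedBall hyb))) t
    rw [h5, integral_const_mul]
    ring
  have h6 : ‖t‖ ^ 2 * (e / (‖t‖ ^ 2 + 1)) ≤ e := by
    rw [mul_div_assoc', div_le_iff₀ (by positivity)]
    nlinarith [sq_nonneg ‖t‖]
  have h7 := mul_le_mul_of_nonneg_left h1 (sq_nonneg ‖t‖)
  have h8 : ‖t‖ ^ 2 * (Q 1 + Q Complex.I + e / (‖t‖ ^ 2 + 1)) =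
      ‖t‖ ^ 2 * (Q 1 + Q Complex.I) + ‖t‖ ^ 2 * (e / (‖t‖ ^ 2 + 1)) := by ring
  linarith

theorem den (hX : Npc X gm) {O : Set ℂ} (hu : LM u O) (hx : x0 ∈ O) (h : Apx u w x0 Q) (t : ℂ) :
    Tendsto (fun r : ℝ => ⨍ y in ball x0 r, sp u t y ^ 2) (𝓝[>] 0) (𝓝 (Q t)) := by
  obtain ⟨R, hR0, hRO, -⟩ := lpo_ball hu.opn hu.lip hx
  rw [tendsto_order]
  refine ⟨fun a ha => ?_, fun a ha => ?_⟩
  · filter_upwards [Ioo_mem_nhdsGT hR0] with r hr
    exact ha.trans_le (low hX hu h t hr.1 ((closedBall_subset_closedBall hr.2.le).trans hRO))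
  · obtain ⟨r, hr0, hrO, hr⟩ := upt hX hu hx h t (e := (a - Q t) / 2) (by linarith)
    filter_upwards [Ioo_mem_nhdsGT hr0] with s hs
    have := hr s hs.1 hs.2.le
    linarith

end H46NB
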